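import Pool.Agent.Run7.h107.AGQ

/-!
MP_75608d_al.  A spectral gap for a very slowly growing number of random even permutations.

There is `C` such that for all large `n` and all `m ≥ C (log log n)²`, all but a proportion
`(log n)² / n` of the `m`-tuples of elements of `A_n` generate `A_n` and have spectral gap at least
`exp (-C (log (2 + log n / m))²)`.  In particular the gap is bounded below by a positive constant
for `m ≥ a log n` (any fixed `a > 0`), and it is at least `exp (-C' (log log n)²)` for
`m ≥ C (log log n)²`.

Outline.  A fixed number of letters has a gap on the levels `j ≤ n^{13/16}` (starting files).  Let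
`δ_i = (2/3)^i / 16`.  Round `i` passes from the levels `j ≤ n^{1 - 3 δ_i}` to the levels
`j ≤ n^{1 - 3 δ_{i+1}}`, uniformly for `δ_i log n ≥ 520`: one new letter gives a bound for the
trace of a high power on the components of these levels, and a family of `O(i)` further classes of
four letters turns it into a gap; the loss in the gap is a factor `exp (-O(i))`.  Here the product
of the walk of the new classes with the projection on the exceptional eigenvectors is controlled by
the exponential trace `tr exp (t A) / dim V`, which behaves submultiplicatively under `t → 4 t` when
a class occurs once (Golden-Thompson, Schur's lemma).  After `i` rounds all levels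
`≤ n^{1 - 3 δ_i}` have a gap, which gives a bound for the number of exceptional eigenvalues in every
other representation, and `O(δ_i log n + log log n + i²)` further classes of four letters finish
the proof; `i` is chosen so that this is at most `m`.
-/

namespace Pool.Agent.Results.MP_75608d_al.FewGenerators
open RC14 Filter Topology

theorem result : ∃ C : ℝ, 1 ≤ C ∧ ∀ᶠ n : ℕ in atTop, ∀ m : ℕ,
    C * (Real.log (Real.log n)) ^ 2 ≤ m →
    (Nat.card {x : Fin m → Alt n //
      ¬ Expanding (Real.exp (-(C * (Real.log (2 + Real.log n / m)) ^ 2))) x} : ℝ) ≤
      (Real.log n) ^ 2 / n * (Fintype.card (Alt n) : ℝ) ^ m :=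
  Run7.h107.MAINU

end Pool.Agent.Results.MP_75608d_al.FewGenerators
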