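import Pool.Agent.Run7.h624.PD.PairFinal

/-!
MP_75608d_al.  For every fixed `k ≥ 2` (in particular for pairs) and every `δ > 0`: with
probability tending to one, every element of the alternating group `A_n` is a product of at most
`n ^ (5 / 3 + δ)` of `k` independent uniform random elements of `A_n` and their inverses.
-/

namespace Pool.Agent.Results.MP_75608d_al.PairDiameter
open RC14 Filter Topology

theorem result (k : ℕ) (hk : 2 ≤ k) (δ : ℝ) (hδ : 0 < δ) : Tendsto (fun n : ℕ =>
    (Nat.card {x : Fin k → Alt n //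
      ∀ g : Alt n, ∃ w : List (Alt n), (w.length : ℝ) ≤ (n : ℝ) ^ (5 / 3 + δ) ∧
        (∀ y ∈ w, ∃ i, y = x i ∨ y = (x i)⁻¹) ∧ w.prod = g} : ℝ) /
        (Fintype.card (Alt n) : ℝ) ^ k) atTop (𝓝 1) :=
  Run7.h624.PD.diam_pairs k hk δ hδ

end Pool.Agent.Results.MP_75608d_al.PairDiameter
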