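import Pool.Agent.Run7.h624.PG.Final

/-!
MP_75608d_al.  For every fixed `k ≥ 2` (in particular for pairs) and every `δ > 0`: with
probability tending to one, `k` independent uniform random elements of the alternating group `A_n`
generate `A_n` and the random walk has spectral gap at least `n ^ (-(8 / 3 + δ))`.

Outline.  By `PairDiameter` every product of at most `q` disjoint three-cycles, `q` about
`n ^ (1 / 3)`, is a word of length `n ^ (1 + δ)`, so all elements of the alternating group of a set
of `q` points are such words.  For every function of mean zero some set `B` of `q` points captures
the part `(q - 1) / (n - 1)` of its variance: one point after the other is removed, and the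
projections to the functions which depend on the image of one point are nearly orthogonal.
-/

namespace Pool.Agent.Results.MP_75608d_al.PairGap
open RC14 Filter Topology

theorem result (k : ℕ) (hk : 2 ≤ k) (δ : ℝ) (hδ : 0 < δ) : Tendsto (fun n : ℕ =>
    (Nat.card {x : Fin k → Alt n // Expanding ((n : ℝ) ^ (-(8 / 3 + δ))) x} : ℝ) /
        (Fintype.card (Alt n) : ℝ) ^ k) atTop (𝓝 1) :=
  Run7.h624.PG.gap_pairs k hk δ hδ

end Pool.Agent.Results.MP_75608d_al.PairGap
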